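import Mathlib

namespace Pool.Agent.QIBH

/-- A quasi-identity: number of variables, premises, conclusion. -/
abbrev QI : Type := (n : ℕ) × (List (FreeGroup (Fin n)) × FreeGroup (Fin n))

/-- The group satisfies the quasi-identity. -/
def Sat (G : Type) [Group G] (q : QI) : Prop :=
  ∀ x : Fin q.1 → G, (∀ w ∈ q.2.1, FreeGroup.lift x w = 1) → FreeGroup.lift x q.2.2 = 1

/-- No subgroup `ℤ² ⋊ ℤ` given by a matrix of determinant one and trace larger than two. -/
def NoSol (G : Type) [Group G] : Prop :=
  ∀ (a b t : G) (p q r s : ℤ), p * s - q * r = 1 → 2 < p + s → a * b = b * a →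
    t * a * t⁻¹ = a ^ p * b ^ q → t * b * t⁻¹ = a ^ r * b ^ s → IsOfFinOrder a

/-- A subnormal series of the given length with `NoSol` factors. -/
def Poly : ℕ → (G : Type) → [Group G] → Prop
  | 0, G, _ => Subsingleton G
  | d + 1, G, _ => ∃ (N : Subgroup G) (_ : N.Normal), NoSol (G ⧸ N) ∧ Poly d N

/-! Examples: periodic groups and virtually solvable groups have such a series. -/

theorem noSol_of_periodic {G : Type} [Group G] (h : ∀ g : G, IsOfFinOrder g) : NoSol G :=
  fun a _ _ _ _ _ _ _ _ _ _ _ => h a

theorem noSol_of_comm {G : Type} [CommGroup G] : NoSol G := fun a b t p q r s h1 h2 _ h3 h4 => by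
  rw [mul_inv_cancel_comm, ← Additive.ofMul.apply_eq_iff_eq] at h3 h4
  refine isOfFinOrder_iff_zpow_eq_one.2 ⟨p + s - 2, by omega, Additive.ofMul.injective ?_⟩
  simp only [ofMul_mul, ofMul_zpow, ofMul_one] at h3 h4 ⊢
  have h5 : (p + s - 2) • Additive.ofMul a = (p + s - 1 - (p * s - q * r)) • Additive.ofMul a := by
    rw [h1, sub_sub, one_add_one_eq_two]
  linear_combination (norm := module) h5 + (s - 1) • h3 - q • h4

theorem poly_of_periodic {G : Type} [Group G] (h : ∀ g : G, IsOfFinOrder g) : Poly 1 G :=
  ⟨⊥, inferInstance, noSol_of_periodic fun g => by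
    obtain ⟨g, rfl⟩ := QuotientGroup.mk'_surjective ⊥ g
    exact (QuotientGroup.mk' ⊥).isOfFinOrder (h g), (inferInstance : Subsingleton (⊥ : Subgroup G))⟩

theorem poly_of_derived (d : ℕ) : ∀ (G : Type) [Group G], derivedSeries G d = ⊥ → Poly d G := by
  induction d with
  | zero => exact fun G _ h => Subgroup.subsingleton_iff.1 (subsingleton_of_bot_eq_top h.symm)
  | succ d ih =>
    refine fun G _ h => ⟨commutator G, inferInstance, noSol_of_comm (G := Abelianization G),
      ih _ ((Subgroup.map_eq_bot_iff_of_injective _ (commutator G).subtype_injective).1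
        (le_bot_iff.1 (h ▸ ?_)))⟩
    clear h ih
    induction d with
    | zero => exact Subgroup.map_subtype_le _
    | succ d ih =>
      rw [derivedSeries_succ, derivedSeries_succ G, Subgroup.map_commutator]
      exact Subgroup.commutator_mono ih ih

theorem poly_of_virtually_solvable {G : Type} [Group G] (N : Subgroup G) [N.Normal]
    [Finite (G ⧸ N)] [h : Group.IsSolvable N] : ∃ d, Poly d G :=
  let ⟨d, hd⟩ := h.solvable
  ⟨d + 1, N, inferInstance, noSol_of_periodic isOfFinOrder_of_finite, poly_of_derived d N hd⟩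

end Pool.Agent.QIBH
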