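import Pool.Agent.Work.MP_9628a2_al.Hedge.Defs
import Pool.Agent.Work.MP_9628a2_al.Quot
import Pool.Agent.Work.MP_9628a2_al.Limit
import Pool.Agent.Work.MP_9628a2_al.Logic

-- merged part: Pool.Agent.Work.MP_9628a2_al.Hedge.Sol
section
/-! The relators force the two words to commute in groups with a series of `NoSol` factors. -/

namespace Pool.Agent.QIBH

open Pool.Agent.QIB

variable {G : Type} [Group G]

theorem two_le_re (l : ℕ) : 2 ≤ ((⟨2, 1⟩ : ℤ√3) ^ (l + 1)).re ∧ 0 ≤ ((⟨2, 1⟩ : ℤ√3) ^ (l + 1)).im := by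
  induction l with
  | zero => simp
  | succ l ih =>
    rw [pow_succ, Zsqrtd.re_mul, Zsqrtd.im_mul]
    dsimp only
    omega

theorem ord_of_sys {Z : Set (G × G)} (hZ : ∀ z ∈ Z, ∃ y ∈ Z, BW.Rel z.1 z.2 (y.1 ^ 9)) (d : ℕ) :
    ∀ (N : Type) [Group N] (ι : N →* G), Function.Injective ι → Poly d N →
      (∀ z ∈ Z, ∃ m : ℕ, z.1 ^ (m + 1) ∈ ι.range ∧ z.2 ^ (m + 1) ∈ ι.range) →
      ∀ z ∈ Z, IsOfFinOrder z.1 := by
  induction d with
  | zero =>
    intro N _ ι _ (hP : Subsingleton N) h z hz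
    obtain ⟨m, ⟨a, ha⟩, -⟩ := h z hz
    exact isOfFinOrder_iff_pow_eq_one.2 ⟨_, m.succ_pos, by
      rw [← ha, Subsingleton.elim a 1, map_one]⟩
  | succ d ih =>
    rintro N _ ι hι ⟨M, hM, hQ, hP⟩ h
    refine ih M (ι.comp M.subtype) (hι.comp M.subtype_injective) hP fun z hz => ?_
    obtain ⟨y, hy, R⟩ := hZ z hz
    obtain ⟨m, ⟨a, ha⟩, ⟨b, hb⟩⟩ := h z hz
    obtain ⟨l, ⟨t, ht⟩, -⟩ := h y hy
    have h1 := R.conj_pow (l + 1) ⟨(m + 1 : ℕ), 0⟩
    have h2 := R.conj_pow (l + 1) ⟨0, (m + 1 : ℕ)⟩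
    have h3 := BW.norm_pow (l + 1)
    have h4 := (two_le_re l).1
    generalize (⟨2, 1⟩ : ℤ√3) ^ (l + 1) = x at h1 h2 h3 h4
    simp only [BW.tor, Zsqrtd.re_mul, Zsqrtd.im_mul, mul_zero, add_zero, zero_add, zpow_zero,
      mul_one, one_mul] at h1 h2
    simp only [mul_comm _ ((m + 1 : ℕ) : ℤ), zpow_mul, zpow_natCast, ← pow_mul, mul_comm 9] at h1 h2
    simp only [pow_mul, ← ha, ← hb, ← ht, ← map_pow, ← map_zpow, ← map_inv, ← map_mul] at h1 h2
    have k1 := congrArg (QuotientGroup.mk' M) (hι h1)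
    have k2 := congrArg (QuotientGroup.mk' M) (hι h2)
    have k3 : Commute (QuotientGroup.mk' M a) (QuotientGroup.mk' M b) := Commute.map (hι (by
      rw [map_mul, map_mul, ha, hb]; exact (R.c.pow_pow _ _).eq) : a * b = b * a) _
    simp only [map_mul, map_inv, map_zpow] at k1 k2
    obtain ⟨i, hi, k4⟩ := isOfFinOrder_iff_pow_eq_one.1 (hQ _ _ _ x.re x.im (3 * x.im) x.re
      (by linear_combination h3) (by omega) k3.eq k1 (by rw [k2, zpow_mul]))
    obtain ⟨j, hj, k5⟩ := isOfFinOrder_iff_pow_eq_one.1 (hQ _ _ _ x.re (3 * x.im) x.im x.re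
      (by linear_combination h3) (by omega) k3.symm.eq
      (by rw [k2, (k3.symm.zpow_zpow _ _).eq, zpow_mul]) (k1.trans (k3.zpow_zpow _ _).eq))
    have e : (m + 1) * (i * j) - 1 + 1 = (m + 1) * (i * j) := 
      Nat.sub_add_cancel (Nat.mul_pos m.succ_pos (Nat.mul_pos hi hj))
    refine ⟨(m + 1) * (i * j) - 1, ⟨⟨a ^ (i * j), (QuotientGroup.eq_one_iff _).1 ?_⟩, ?_⟩,
      ⟨⟨b ^ (i * j), (QuotientGroup.eq_one_iff _).1 ?_⟩, ?_⟩⟩
    · rw [← QuotientGroup.mk'_apply, map_pow, pow_mul, k4, one_pow]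
    · rw [e, pow_mul z.1, ← ha, ← map_pow ι]; rfl
    · rw [← QuotientGroup.mk'_apply, map_pow, pow_mul', k5, one_pow]
    · rw [e, pow_mul z.2, ← hb, ← map_pow ι]; rfl

theorem rels_poly {d : ℕ} (hP : Poly d G) (n : ℕ) (hn : 2 ≤ n) (x : ℕ → G)
    (h : ∀ r ∈ rels n, FreeGroup.lift x r = 1) :
    FreeGroup.lift x (wY n) * FreeGroup.lift x (wY' n) =
      FreeGroup.lift x (wY' n) * FreeGroup.lift x (wY n) := by
  obtain ⟨e, he⟩ : ∃ e : ℕ → G, ∀ k, FreeGroup.lift x (wE n k) = e k := ⟨_, fun _ => rfl⟩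
  obtain ⟨g, hg⟩ : ∃ g : ℕ → G, ∀ k, FreeGroup.lift x (wG n k) = g k := ⟨_, fun _ => rfl⟩
  have ht : ∀ k, FreeGroup.lift x (wT n k) = e (k + 1) ^ 9 := fun k => by rw [wT, map_pow, he]
  have R : ∀ k, k < n → BW.Rel (e k) (g k) (e (k + 1) ^ 9) := fun k hk => by
    have h1 := h _ (List.mem_append_left _ (List.mem_map.2 ⟨k, List.mem_range.2 hk, rfl⟩))
    have h2 := h _ (List.mem_append_right _ (List.mem_map.2 ⟨k, List.mem_range.2 hk, rfl⟩))
    have h3 := hg k
    rw [wG] at h3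
    simp only [map_mul, map_inv, map_pow, he, hg, ht] at h1 h2 h3
    refine ⟨?_, ?_, mul_inv_eq_one.1 h2⟩
    · rwa [mul_inv_eq_one, mul_inv_eq_iff_eq_mul] at h1
    · rw [← h3, ← mul_assoc, inv_pow, mul_inv_cancel, one_mul]
  have hen : e n = MulAut.conj (x 0) (e 0) := by
    rw [← he, ← he, wE, wE, if_neg (lt_irrefl n), if_pos (by omega)]
    simp
  have hc : ∀ j, BW.A j (e 0) → BW.A j (e n) := fun j ⟨m, hm, h0⟩ =>
    ⟨m, hm, by rw [hen, ← map_pow, h0, map_one]⟩
  have down : ∀ j, BW.A (j + 2) (e n) → ∀ i k, k + i + 1 = n → BW.A (j + 1) (e k) :=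
    fun j hj i => by
      induction i with
      | zero => exact fun k hk => (R k (by omega)).step (by rwa [← hk] at hj)
      | succ i ih => exact fun k hk => (R k (by omega)).step (ih (k + 1) (by omega)).succ
  have h1 : ∀ j, BW.A (j + 1) (e 0) → BW.A 1 (e 0) := fun j => by
    induction j with
    | zero => exact id
    | succ j ih => exact fun hj => ih (down j (hc _ hj) (n - 1) 0 (by omega))
  have h2 : IsOfFinOrder (e 0) := by
    refine ord_of_sys (Z := {z | ∃ (u : MulAut G) (k : ℕ), k < n ∧ z = (u (e k), u (g k))}) ?_ d G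
      (MonoidHom.id G) Function.injective_id hP (fun z _ => ⟨0, ⟨_, rfl⟩, _, rfl⟩) (e 0, g 0)
      ⟨1, 0, by omega, rfl⟩
    rintro _ ⟨u, k, hk, rfl⟩
    have h2 : BW.Rel (u (e k)) (u (g k)) (u (e (k + 1)) ^ 9) :=
      ⟨(R k hk).c.map u, by simpa only [map_mul, map_inv, map_pow] using congrArg u (R k hk).te,
        by simpa only [map_mul, map_inv, map_pow] using congrArg u (R k hk).tg⟩
    rcases (Nat.succ_le_of_lt hk).eq_or_lt with h3 | h3
    · rw [show k + 1 = n from h3, hen] at h2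
      exact ⟨_, ⟨u * MulAut.conj (x 0), 0, by omega, rfl⟩, h2⟩
    · exact ⟨_, ⟨u, k + 1, h3, rfl⟩, h2⟩
  obtain ⟨j, m, hm, hj⟩ := Nat.exists_eq_pow_mul_and_not_dvd h2.orderOf_pos.ne' 3 (by omega)
  obtain ⟨c, hc'⟩ := (down 0 (hc _ (h1 j (BW.A.succ
    ⟨m, hm, by rw [← hj, pow_orderOf_eq_one]⟩))).succ (n - 2) 1 (by omega)).cube
  simp only [wY, wY', map_mul, map_inv, map_pow, he, hg]
  rw [hc']
  exact (R 0 (by omega)).comm c

end Pool.Agent.QIBH
end

-- merged part: Pool.Agent.Work.MP_9628a2_al.Hedge.Cv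
section
/-! The witnesses, cut down to the subgroup generated by the distinguished tuple. -/

namespace Pool.Agent.QIBH

open Pool.Agent.QIB

/-- What the construction gives for a nontrivial word `w0` and a size `T`. -/
structure Cv (w0 : FreeGroup Bool) (T : ℕ) : Type 1 where
  H : Type
  [grp : Group H]
  x : ℕ → H
  rl : List (FreeGroup ℕ)
  ω : FreeGroup ℕ
  v : ℕ → FreeGroup Bool
  surj : Function.Surjective (FreeGroup.lift x)
  fg : Group.FG H
  poly : ∀ (d : ℕ) (G : Type) [Group G], Poly d G → HMod G (rl, ω)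
  hold : Hold x rl
  ne : FreeGroup.lift x ω ≠ 1
  law_ω : ∀ (G : Type) [Group G], IsLaw G w0 → ∀ x : ℕ → G, FreeGroup.lift x ω = 1
  law_v : ∀ (G : Type) [Group G], IsLaw G w0 → ∀ i, IsLaw G (v i)
  small : ∀ (tri : List (ℕ × ℕ × ℕ)) (i0 : ℕ) (f : ℕ → H), tri.length ≤ T → QIB.Sat f tri →
    f i0 ≠ 1 → FinReal tri i0
  law : ∃ w, w ≠ 1 ∧ IsLaw H w
  dich : ∀ a b : H, (∀ i, ev a b (v i) = 1) ∨
    ∀ r, FreeGroup.lift (fun i => ev a b (v i)) r = 1 ↔ FreeGroup.lift x r = 1
  key : ∀ (tri : List (ℕ × ℕ × ℕ)) (i0 : ℕ), ¬ FinReal tri i0 →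
    ∃ tests : List (FreeGroup ℕ × FreeGroup ℕ),
      (∀ t ∈ tests, t.1 ∈ Subgroup.normalClosure {FreeGroup.of i0} ∧
        t.2 ∈ Subgroup.normalClosure {FreeGroup.of i0}) ∧
      ∀ f : ℕ → H, QIB.Sat f tri → f i0 ≠ 1 → ∃ t ∈ tests,
        FreeGroup.lift (fun i => ev (FreeGroup.lift f t.1) (FreeGroup.lift f t.2) (v i)) ω ≠ 1

attribute [instance] Cv.grp

theorem exists_cv (w0 : FreeGroup Bool) (h : w0 ≠ 1) (T : ℕ) : Nonempty (Cv w0 T) := by
  classical
  obtain ⟨W1, W2, a1, a2, a3, b1, b2, c1, c2⟩ := exists_words w0 h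
  obtain ⟨P, rfl, rfl, rfl⟩ := exists_par W1 W2 a1 a2 a3 T
  obtain ⟨W⟩ := exists_tower P
  let y : ℕ → W.H := fun i => if i ≤ P.n then W.p (gam P.n i) else 1
  let v : ℕ → FreeGroup Bool := fun i => if i ≤ P.n then vP P i else 1
  let S := (FreeGroup.lift y).range
  let x : ℕ → S := fun i => ⟨y i, FreeGroup.of i, FreeGroup.lift_apply_of⟩
  have hι := S.subtype_injective
  have hx : ∀ r, S.subtype (FreeGroup.lift x r) = FreeGroup.lift y r := fun r => map_lift _ _ _
  have hω : ∀ (G : Type) [Group G] (f g : ℕ → G), (∀ i ≤ P.n, f i = g i) →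
      FreeGroup.lift f (ωP P) = FreeGroup.lift g (ωP P) := fun G _ f g e => by
    obtain ⟨-, h2, h3⟩ := rels_congr P.n P.two_le f g e
    rw [lift_ωP, lift_ωP, h2, h3]
  have hs : Function.Surjective (FreeGroup.lift x) := fun ⟨_, r, hr⟩ =>
    ⟨r, hι ((hx r).trans hr)⟩
  refine ⟨{
    H := S
    x := x
    rl := rels P.n
    ω := ωP P
    v := v
    surj := hs
    fg := ⟨⟨(Finset.range (P.n + 1)).image x, top_unique fun g _ => ?_⟩⟩
    poly := fun d G _ hP f hf => by
      change FreeGroup.lift f (ωP P) = 1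
      rw [lift_ωP, ← ev_wd]
      exact ev_of_comm (rels_poly hP P.n P.two_le f hf) c1
    hold := fun r hr => hι (by
      rw [hx, (rels_congr P.n P.two_le y _ fun i hi => if_pos hi).1 r hr, W.hold_gam r hr, map_one])
    ne := fun e => W.ω_ne (by rw [← hω _ y _ fun i hi => if_pos hi, ← hx, e, map_one])
    law_ω := fun G _ hG x => by rw [lift_ωP, ← ev_wd]; exact hG.of_mem b1 _ _
    law_v := fun G _ hG i a b => ?_
    small := fun tri i0 f hT hf h0 => ?_
    law := ?_
    dich := fun a b => ?_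
    key := fun tri i0 hn => ⟨tests P.m tri i0, tests_mem _ _ _, fun f hf h0 => ?_⟩ }⟩
  · obtain ⟨r, rfl⟩ := hs g
    induction r using FreeGroup.induction_on with
    | C1 => exact map_one (FreeGroup.lift x) ▸ one_mem _
    | of i =>
      rw [FreeGroup.lift_apply_of]
      by_cases hi : i ≤ P.n
      · exact Subgroup.subset_closure (Finset.mem_image_of_mem x (Finset.mem_range_succ_iff.2 hi))
      · exact (show x i = 1 from Subtype.ext (if_neg hi)) ▸ one_mem _
    | inv_of i ih => exact map_inv (FreeGroup.lift x) _ ▸ inv_mem (ih trivial)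
    | mul a b iha ihb => exact map_mul (FreeGroup.lift x) _ _ ▸ mul_mem (iha trivial) (ihb trivial)
  · dsimp only [v]
    split_ifs
    · rw [ev_vP, ← ev_wd, ← ev_wd, hG.of_mem b1, hG.of_mem b2, vw_one]
    · exact map_one _
  · choose F hF using fun i => W.p_surj (f i)
    obtain ⟨k, hk⟩ := W.exists_sat (F := F) (by simp only [hF]; exact hf.map S.subtype)
    exact W.finReal tri hT i0 k _ (hk k le_rfl) fun h =>
      h0 (Subtype.ext ((hF i0).symm.trans (W.p_eq_one.2 ⟨k, h⟩)))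
  · obtain ⟨w, h1, h2⟩ := W.law c1 c2
    exact ⟨w, h1, fun a b => hι (by rw [map_ev, h2, map_one])⟩
  · obtain ⟨a', ha⟩ := W.p_surj a
    obtain ⟨b', hb⟩ := W.p_surj b
    have e : ∀ i, S.subtype (ev a b (v i)) = ev (W.p a') (W.p b') (v i) := fun i => by
      rw [map_ev, ha, hb]; rfl
    rcases W.dich a' b' with ⟨k, h⟩ | ⟨u, hu⟩
    · refine Or.inl fun i => hι ?_
      rw [e, map_one]
      dsimp only [v]
      split_ifs
      · rw [ev_vP, W.ev_of_el h c1, W.ev_of_el h c2, vw_one]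
      · exact map_one _
    · refine Or.inr fun r => ?_
      rw [← map_eq_one_iff _ hι, ← map_eq_one_iff (x := FreeGroup.lift x r) _ hι, hx, map_lift,
        ← map_eq_one_iff (x := FreeGroup.lift y r) (MulAut.conj u).toMonoidHom
          (MulAut.conj u).injective, map_lift]
      refine iff_of_eq (congrArg (fun z => FreeGroup.lift z r = 1) (funext fun i => ?_))
      rw [e]
      dsimp only [v, y]
      split_ifs with hi
      · rw [ev_vP]; exact hu i hi
      · rw [map_one, map_one]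
  · obtain ⟨t, h1, h2⟩ := W.key tri i0 hn _ (hf.map S.subtype) fun e => h0 (Subtype.ext e)
    refine ⟨t, h1, fun e => h2 ?_⟩
    rw [← map_one S.subtype, ← e, map_lift]
    refine hω _ _ _ fun i hi => ?_
    rw [map_ev, map_lift, map_lift]
    dsimp only [v]
    rw [if_pos hi]

end Pool.Agent.QIBH
end

-- merged part: Pool.Agent.Work.MP_9628a2_al.Hedge.Main
section
/-! From the witnesses to a splitting basis. -/

namespace Pool.Agent.QIBH

open Pool.Agent.QIB

/-- A witness together with its parameters. -/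
structure St : Type 1 where
  w : FreeGroup Bool
  hw : w ≠ 1
  T : ℕ
  C : Cv w T

theorem exists_seq (w : FreeGroup Bool) (hw : w ≠ 1) (sz : Hn → ℕ) :
    ∃ s : ℕ → St, (∀ j, j ≤ (s j).T ∧ ∀ (G : Type) [Group G], IsLaw G w → IsLaw G (s j).w) ∧
      ∀ i j, i < j → IsLaw (s i).C.H (s j).w ∧ sz ((s i).C.rl, (s i).C.ω) ≤ (s j).T := by
  have step : ∀ s : St, ∃ s' : St, IsLaw s.C.H s'.w ∧
      (∀ (G : Type) [Group G], IsLaw G s.w → IsLaw G s'.w) ∧
      s.T + 1 + sz (s.C.rl, s.C.ω) ≤ s'.T := by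
    intro s
    obtain ⟨u, hu, h1, h2⟩ := exists_next_law s.w s.hw s.C.H s.C.law
    obtain ⟨C⟩ := exists_cv u hu (s.T + 1 + sz (s.C.rl, s.C.ω))
    exact ⟨⟨u, hu, _, C⟩, h1, h2, le_rfl⟩
  choose nx h1 h2 h3 using step
  obtain ⟨C0⟩ := exists_cv w hw 0
  let s : ℕ → St := fun j => Nat.rec ⟨_, hw, 0, C0⟩ (fun _ t => nx t) j
  have hs : ∀ j, s (j + 1) = nx (s j) := fun _ => rfl
  refine ⟨s, fun j => ?_, fun i j hij => ?_⟩
  · induction j with
    | zero => exact ⟨Nat.zero_le _, fun _ _ h => h⟩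
    | succ j ih =>
      have := h3 (s j)
      rw [hs]
      exact ⟨by omega, fun G _ h => h2 _ G (ih.2 G h)⟩
  · induction j, hij using Nat.le_induction with
    | base =>
      have := h3 (s i)
      rw [hs]
      exact ⟨h1 _, by omega⟩
    | succ j _ ih =>
      have := h3 (s j)
      rw [hs]
      exact ⟨h2 _ _ ih.1, by omega⟩

theorem exists_emb {H G : Type} [Group H] [Group G] {x : ℕ → H}
    (hx : Function.Surjective (FreeGroup.lift x)) (y : ℕ → G)
    (h : ∀ r, FreeGroup.lift y r = 1 ↔ FreeGroup.lift x r = 1) :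
    ∃ φ : H →* G, Function.Injective φ := by
  refine ⟨(FreeGroup.lift x).liftOfSurjective hx ⟨FreeGroup.lift y, fun r hr => (h r).2 hr⟩,
    (injective_iff_map_eq_one _).2 fun g hg => ?_⟩
  obtain ⟨r, rfl⟩ := hx g
  exact (h r).1 ((MonoidHom.liftOfRightInverse_comp_apply _ _ _ _ r).symm.trans hg)

/-- A pattern that is valid in the class and in all witnesses that embed into `G` is valid in `G`. -/
theorem pattern (K : (G : Type) → [Group G] → Prop)
    (hfin : ∀ (G : Type) [Group G] [Finite G], K G) (s : ℕ → St) (hT : ∀ j, j ≤ (s j).T)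
    (hl : ∀ i j, i < j → IsLaw (s i).C.H (s j).w) (G : Type) [Group G]
    (hD : ∀ h : Hn, (∀ (Q : Type) [Group Q], K Q → HMod Q h) → (∀ i, HMod (s i).C.H h) → HMod G h)
    (tri : List (ℕ × ℕ × ℕ)) (i0 : ℕ)
    (hK : ∀ (Q : Type) [Group Q], K Q → ∀ g : ℕ → Q, QIB.Sat g tri → g i0 = 1)
    (hH : ∀ j (φ : (s j).C.H →* G), Function.Injective φ →
      ∀ g : ℕ → (s j).C.H, QIB.Sat g tri → g i0 = 1)
    (f : ℕ → G) (hf : QIB.Sat f tri) : f i0 = 1 := by
  classical
  have hn : ¬ FinReal tri i0 := fun ⟨Q, _, _, g, h1, h2⟩ => h2 (hK Q (hfin Q) g h1)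
  choose ts hts1 hts2 using fun j => (s j).C.key tri i0 hn
  let e : ∀ j, FreeGroup ℕ × FreeGroup ℕ → FreeGroup ℕ → FreeGroup ℕ := fun j t r =>
    FreeGroup.lift (fun i => ev t.1 t.2 ((s j).C.v i)) r
  have A : ∀ (j : ℕ) (L : List (FreeGroup ℕ)) (c : FreeGroup ℕ),
      (∀ k, j ≤ k → k < tri.length → ∀ t ∈ ts k, FreeGroup.lift f (e k t (s k).C.ω) = 1) →
      Hold f L → (∀ (Q : Type) [Group Q] (g : ℕ → Q), g i0 = 1 → FreeGroup.lift g c = 1) →
      (∀ i < j, ∀ g : ℕ → (s i).C.H, QIB.Sat g tri → Hold g L → FreeGroup.lift g c = 1) →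
      FreeGroup.lift f c = 1 := by
    intro j L c h1 h0 h2 h3
    let P : List (FreeGroup ℕ) :=
      ((tri.map fun t => FreeGroup.of t.1 * FreeGroup.of t.2.1 * (FreeGroup.of t.2.2)⁻¹) ++ L) ++
        ((List.range tri.length).filter fun k => j ≤ k).flatMap fun k =>
          (ts k).map fun t => e k t (s k).C.ω
    have hP : ∀ (Q : Type) [Group Q] (g : ℕ → Q), Hold g P ↔ (QIB.Sat g tri ∧ Hold g L) ∧
        ∀ k, k < tri.length → j ≤ k → ∀ t ∈ ts k, FreeGroup.lift g (e k t (s k).C.ω) = 1 := by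
      intro Q _ g
      simp only [Hold, QIB.Sat, P, List.forall_mem_append, List.forall_mem_map,
        List.forall_mem_flatMap, List.mem_filter, List.mem_range, decide_eq_true_eq, and_imp,
        map_mul, map_inv, FreeGroup.lift_apply_of, mul_inv_eq_one]
    refine hD (P, c) (fun Q _ hQ g hg => h2 Q g (hK Q hQ g ((hP Q g).1 hg).1.1))
      (fun i g hg => ?_) f ((hP G f).2 ⟨⟨hf, h0⟩, fun k a b => h1 k b a⟩)
    obtain ⟨⟨g1, g3⟩, g2⟩ := (hP _ g).1 hg
    rcases Nat.lt_or_ge i j with hij | hij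
    · exact h3 i hij g g1 g3
    · refine h2 _ g ?_
      by_contra h
      rcases Nat.lt_or_ge i tri.length with hi | hi
      · obtain ⟨t, ht, hne⟩ := hts2 i g g1 h
        exact hne (by rw [← lift_ev]; exact g2 i hi hij t ht)
      · exact hn ((s i).C.small tri i0 g (hi.trans (hT i)) g1 h)
  have B : ∀ m j, j + m = tri.length →
      ∀ k, j ≤ k → k < tri.length → ∀ t ∈ ts k, FreeGroup.lift f (e k t (s k).C.ω) = 1 := by
    intro m
    induction m with
    | zero => intro j hj k h1 h2; omega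
    | succ m ih =>
      intro j hj k h1 h2 t ht
      have ih' := ih (j + 1) (by omega)
      rcases Nat.lt_or_ge j k with hk | hk
      · exact ih' k hk h2 t ht
      obtain rfl : j = k := le_antisymm h1 hk
      have z : ∀ (r : FreeGroup ℕ) (Q : Type) [Group Q] (g : ℕ → Q), g i0 = 1 →
          FreeGroup.lift g (e j t r) = 1 := fun r Q _ g hg => by
        rw [lift_ev, lift_eq_one_of_mem g i0 hg (hts1 j t ht).1,
          lift_eq_one_of_mem g i0 hg (hts1 j t ht).2]
        simp only [ev_one, lift_one']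
      have A' : ∀ (L : List (FreeGroup ℕ)) (r : FreeGroup ℕ), Hold f L →
          (∀ g : ℕ → (s j).C.H, QIB.Sat g tri → Hold g L → FreeGroup.lift g (e j t r) = 1) →
          FreeGroup.lift f (e j t r) = 1 := fun L r h3 h4 =>
        A (j + 1) L _ ih' h3 (z r) fun i hi g g1 g2 => by
          rcases Nat.lt_or_ge i j with hij | hij
          · have := (s j).C.law_v _ (hl i j hij)
            rw [lift_ev]
            simp only [this _ _ _, lift_one']
          · obtain rfl : i = j := by omega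
            exact h4 g g1 g2
      by_contra hne
      obtain ⟨φ, hφ⟩ := exists_emb (s j).C.surj (fun i => ev (FreeGroup.lift f t.1)
        (FreeGroup.lift f t.2) ((s j).C.v i)) fun r => by
          rw [← lift_ev]
          refine ⟨fun hr => by_contra fun h3 => hne (A' [e j t r] _ (by simpa [Hold] using hr)
            fun g _ g2 => ?_), fun hr => A' [] r (fun _ h => nomatch h) fun g _ _ => ?_⟩
          · have g3 := g2 _ List.mem_cons_self
            rw [lift_ev] at g3 ⊢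
            rcases (s j).C.dich (FreeGroup.lift g t.1) (FreeGroup.lift g t.2) with h4 | h4
            · simp only [h4, lift_one']
            · exact absurd ((h4 r).1 g3) h3
          · rw [lift_ev]
            rcases (s j).C.dich (FreeGroup.lift g t.1) (FreeGroup.lift g t.2) with h4 | h4
            · simp only [h4, lift_one']
            · exact (h4 r).2 hr
      exact hne (A' [] _ (fun _ h => nomatch h) fun g g1 _ => z _ _ g (hH j φ hφ g g1))
  have := A 0 [] (FreeGroup.of i0) (B tri.length 0 (by omega)) (fun _ h => nomatch h)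
    (fun K _ g hg => by simpa using hg) (fun i hi => absurd hi (Nat.not_lt_zero i))
  simpa using this

theorem HMod.of_inj {H G : Type} [Group H] [Group G] {φ : H →* G} (hφ : Function.Injective φ)
    {h : Hn} (hG : HMod G h) : HMod H h := fun x hx => hφ (by
  rw [map_lift, map_one]
  exact hG _ fun r hr => by rw [← map_lift, hx r hr, map_one])

theorem split (w : FreeGroup Bool) (hw : w ≠ 1) (K : (G : Type) → [Group G] → Prop)
    (hfin : ∀ (G : Type) [Group G] [Finite G], K G)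
    (hK : ∀ (G : Type) [Group G], K G → ∀ h : Hn,
      (∀ (Q : Type) [Group Q], (∃ d, Poly d Q) ∨ IsLaw Q w → HMod Q h) → HMod G h) :
    ∃ (σ : ℕ → Hn) (H : ℕ → Type) (_ : ∀ j, Group (H j)),
      (∀ h, (∀ (G : Type) [Group G], K G → HMod G h) ↔
        ∀ (G : Type) [Group G], (∀ j, HMod G (σ j)) → HMod G h) ∧
      (∀ j, Group.FG (H j)) ∧ (∀ i j, HMod (H j) (σ i) ↔ i ≠ j) ∧
      ∀ (G : Type) [Group G], {i | HMod G (σ i)}.Infinite → ∀ h,
        (∀ (Q : Type) [Group Q], K Q → HMod Q h) →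
        (∀ j (φ : H j →* G), Function.Injective φ → HMod (H j) h) → HMod G h := by
  classical
  choose tr htr using exists_tri
  obtain ⟨s, hT, hs⟩ := exists_seq w hw fun h => (tr h).1.length
  choose cj hcj using hmod_conj
  obtain ⟨en, hen⟩ := exists_surjective_nat Hn
  let D : Hn → Prop := fun h =>
    (∀ (Q : Type) [Group Q], K Q → HMod Q h) ∧ ∀ i, HMod (s i).C.H h
  let ρ : ℕ → Hn := fun j => ((s j).C.rl, (s j).C.ω)
  let ψ : ℕ → Hn := fun j => Nat.rec ([], 1) (fun k p => if D (en k) then cj p (en k) else p) j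
  have hψ : ∀ j (G : Type) [Group G], HMod G (ψ j) ↔ ∀ k < j, D (en k) → HMod G (en k) := by
    intro j G _
    induction j with
    | zero => exact iff_of_true (fun x _ => map_one _) fun k hk => nomatch hk
    | succ j ih =>
      rw [Nat.forall_lt_succ_right, ← ih]
      change HMod G (if D (en j) then cj (ψ j) (en j) else ψ j) ↔ _
      split_ifs with h
      · rw [hcj, imp_iff_right h]
      · simp only [h, false_imp_iff, and_true]
  have hρ : ∀ j (Q : Type) [Group Q], K Q → HMod Q (ρ j) := fun j Q _ hQ => hK Q hQ _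
    fun R _ h => h.elim (fun ⟨d, h⟩ => (s j).C.poly d R h)
      fun h x _ => (s j).C.law_ω R ((hT j).2 R h) x
  have hρ1 : ∀ j, ¬ HMod (s j).C.H (ρ j) := fun j h => (s j).C.ne (h _ (s j).C.hold)
  have hρ2 : ∀ i j, i ≠ j → HMod (s j).C.H (ρ i) := fun i j hij => by
    rcases Nat.lt_or_gt_of_ne hij with h | h
    · refine (htr _ _).2 fun f hf => by_contra fun hne => ?_
      obtain ⟨Q, _, _, g, h1, h2⟩ := (s j).C.small _ _ f (hs i j h).2 hf hne
      exact h2 ((htr _ Q).1 (hρ i Q (hfin Q)) g h1)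
    · exact fun x _ => (s i).C.law_ω _ (hs j i h).1 x
  have main : ∀ (G : Type) [Group G], {i | HMod G (cj (ρ i) (ψ i))}.Infinite →
      ∀ h, (∀ (Q : Type) [Group Q], K Q → HMod Q h) →
        (∀ j (φ : (s j).C.H →* G), Function.Injective φ → HMod (s j).C.H h) → HMod G h := by
    intro G _ hG h h2 h3
    refine (htr h G).2 (pattern K hfin s (fun j => (hT j).1) (fun i j hij => (hs i j hij).1) G
      (fun h a b => ?_) _ _ (fun Q _ hQ => (htr h Q).1 (h2 Q hQ))
      fun j φ hφ => (htr h _).1 (h3 j φ hφ))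
    obtain ⟨k, rfl⟩ := hen h
    obtain ⟨i, h4, h5⟩ := hG.exists_gt k
    exact (hψ i G).1 ((hcj _ _ G).1 h4).2 k h5 ⟨a, b⟩
  refine ⟨fun j => cj (ρ j) (ψ j), fun j => (s j).C.H, fun _ => inferInstance,
    fun h => ⟨fun hh G _ hG => ?_, fun hh G _ hG => hh G fun j => ?_⟩, fun j => (s j).C.fg,
    fun i j => ⟨?_, fun hij => ?_⟩, main⟩
  · exact main G (Set.infinite_univ.mono fun i _ => hG i) h hh fun j φ hφ =>
      absurd (HMod.of_inj hφ ((hcj _ _ G).1 (hG j)).1) (hρ1 j)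
  · exact (hcj _ _ G).2 ⟨hρ j G hG, (hψ j G).2 fun k _ hk => hk.1 G hG⟩
  · rintro h rfl
    exact hρ1 i ((hcj _ _ _).1 h).1
  · exact (hcj _ _ _).2 ⟨hρ2 i j hij, (hψ i _).2 fun k _ hk => hk.2 j⟩

end Pool.Agent.QIBH
end
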